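import Pool.Agent.Helper94.GA.Goals

/-! Packet GRD: the greedy bound. -/

namespace Pool.Agent.Helper77.GA

open Finset Pointwise Filter Topology
open scoped ComplexOrder
open Pool.Agent.Helper94.GA

universe u

/-- increasing one coordinate of the box adds one term -/
lemma sum_update_range {C : Type} [Fintype C] [DecidableEq C] {X : Type*} [AddCommMonoid X]
    (F : C → ℕ → X) (t : C → ℕ) (c₀ : C) :
    ∑ c, ∑ l ∈ range (Function.update t c₀ (t c₀ + 1) c), F c l =
      (∑ c, ∑ l ∈ range (t c), F c l) + F c₀ (t c₀) := by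
  have h : ∀ c, ∑ l ∈ range (Function.update t c₀ (t c₀ + 1) c), F c l =
      (∑ l ∈ range (t c), F c l) + (if c = c₀ then F c (t c) else 0) := by
    intro c
    by_cases hc : c = c₀
    · subst hc
      rw [Function.update_self, if_pos rfl, Finset.sum_range_succ]
    · rw [Function.update_of_ne hc, if_neg hc, add_zero]
  rw [Finset.sum_congr rfl (fun c _ => h c), Finset.sum_add_distrib]
  simp

/-- the sum over the path is the sum over the box -/
lemma path_sum {C : Type} [Fintype C] [DecidableEq C] {X : Type*} [AddCommMonoid X]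
    (F : C → ℕ → X) (m : ℕ) (t : ℕ → C → ℕ) (c : ℕ → C) (h0 : ∀ a, t 0 a = 0)
    (hs : ∀ i < m, t (i + 1) = Function.update (t i) (c i) (t i (c i) + 1)) :
    ∀ i ≤ m, ∑ k ∈ range i, F (c k) (t k (c k)) = ∑ a, ∑ l ∈ range (t i a), F a l := by
  intro i
  induction i with
  | zero => intro _; simp [h0]
  | succ i ih =>
    intro hi
    rw [Finset.sum_range_succ, ih (by omega), hs i (by omega), sum_update_range]

lemma path_mono {C : Type} [DecidableEq C] (m : ℕ) (t : ℕ → C → ℕ) (c : ℕ → C)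
    (hs : ∀ i < m, t (i + 1) = Function.update (t i) (c i) (t i (c i) + 1)) (a : C) :
    ∀ i j, i ≤ j → j ≤ m → t i a ≤ t j a := by
  intro i j hij
  induction j, hij using Nat.le_induction with
  | base => intro _; exact le_refl _
  | succ j hij ih =>
    intro hj
    refine (ih (by omega)).trans ?_
    rw [hs j (by omega)]
    by_cases hc : a = c j
    · subst hc
      rw [Function.update_self]
      omega
    · rw [Function.update_of_ne hc]

lemma fin_filter_sum (m : ℕ) (f : ℕ → ℝ) (i : Fin m) :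
    ∑ k ∈ univ.filter (fun k : Fin m => k < i), f k = ∑ k ∈ range i, f k := by
  rw [Finset.sum_filter]
  have h1 : ∑ k : Fin m, (if k < i then f k else 0) =
      ∑ k : Fin m, (fun k : ℕ => if k < (i : ℕ) then f k else 0) (k : ℕ) := by
    refine Finset.sum_congr rfl (fun k _ => ?_)
    simp only [Fin.lt_def]
  rw [h1, Fin.sum_univ_eq_sum_range (fun k : ℕ => if k < (i : ℕ) then f k else 0) m,
    ← Finset.sum_filter]
  refine Finset.sum_congr ?_ (fun _ _ => rfl)
  ext k
  simp only [Finset.mem_filter, Finset.mem_range]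
  have := i.2
  omega

/-- packet GRD -/
theorem GRD (hAVG : AVG_stmt.{u}) (hRK1 : RK1_stmt) (hG1 : GRD1_stmt) (hG2 : GRD2_stmt)
    (hG3 : GRD3_stmt) (hG5 : GRD5_stmt) (hGF : GRDF_stmt) : GRD_stmt.{u} := by
  classical
  intro K _ C _ _ α x hx e he σ hinj hlam1
  set lam : Fin e → ℂ := fun j => σ j α with hlamdef
  set v : C → Fin e → ℂ := fun c j => σ j (x c) with hvdef
  have hv : ∀ c j, v c j ≠ 0 := fun c j => by
    simp only [hvdef]
    exact (map_ne_zero (σ j)).mpr (hx c)
  have hlam1' : ∀ j, 1 < ‖lam j‖ := hlam1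
  have hinj' : Function.Injective lam := hinj
  set M : ℝ := ∏ j, ‖lam j‖ with hM
  have hM1 : 1 < M := by
    have : (∏ _j : Fin e, (1 : ℝ)) < ∏ j, ‖lam j‖ := by
      refine Finset.prod_lt_prod_of_nonempty (fun _ _ => one_pos) (fun j _ => hlam1' j) ?_
      exact ⟨⟨0, he⟩, Finset.mem_univ _⟩
    simpa using this
  have hM0 : 0 < M := by linarith
  have hlogM : 0 < Real.log M := Real.log_pos hM1
  obtain ⟨s, hs, hs1⟩ := hG1 e C lam v hlam1'
  obtain ⟨L, hL1, hL⟩ := hG2 e C lam v he hinj' hlam1' hv s hs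
  obtain ⟨κ, hκ, hκ1⟩ := hG5 e C lam v hinj' hlam1' hv s hs
  set Q : ℝ := (Fintype.card C : ℝ) with hQ
  have hQ0 : 0 < Q := by
    rw [hQ]; exact_mod_cast Fintype.card_pos
  refine ⟨(L : ℝ) - (Real.log κ - e * Real.log s) / (2 * Real.log M), fun n => ?_⟩
  obtain ⟨m, t, c, ht0, hEl, hst, hlt, hend⟩ := hG3 C
    (fun t c => qa (Nm lam v s t) (wv lam v c (t c)) ≤ M ^ 2 - 1) L hL1 hs1
    (fun t c c' h => hL t c c' h) n
  -- the values of the quadratic form
  set w : ℕ → Fin e → ℂ := fun i => wv lam v (c i) (t i (c i)) with hw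
  set a : ℕ → ℝ := fun i => qa (Nm lam v s (t i)) (w i) with ha
  have hlam0 : ∀ j, lam j ≠ 0 := fun j h => by
    have := hlam1' j
    rw [h, norm_zero] at this
    linarith
  have hwne : ∀ i, w i ≠ 0 := by
    intro i h
    have h0 : w i ⟨0, he⟩ = 0 := by rw [h]; rfl
    simp only [hw, wv] at h0
    exact mul_ne_zero (pow_ne_zero _ (hlam0 _)) (hv _ _) h0
  have hapos : ∀ i, 0 < a i := fun i => (hGF e C lam v s hs (t i) (w i)).2.2.1 (hwne i)
  have haM : ∀ i < m, a i ≤ M ^ 2 - 1 := fun i hi => hEl i hi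
  -- the functionals
  set ψ : ℕ → Fin e → ℂ := fun i => (Nm lam v s (t i))⁻¹.mulVec (w i) with hψ
  let φ : ℕ → (K →+ ℂ) := fun i =>
    { toFun := fun y => ∑ j, star (ψ i j) * σ j y
      map_zero' := by simp
      map_add' := by
        intro y z
        simp only [map_add, mul_add, Finset.sum_add_distrib] }
  have hφ : ∀ i (l : ℕ) (b : C), φ i (α ^ l * x b) = star (ψ i) ⬝ᵥ wv lam v b l := by
    intro i l b
    show ∑ j, star (ψ i j) * σ j (α ^ l * x b) = _
    simp only [dotProduct, wv, Pi.star_apply, map_mul, map_pow, hlamdef, hvdef]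
  have hφa : ∀ i, ‖φ i (α ^ (t i (c i)) * x (c i))‖ = a i := by
    intro i
    rw [hφ i (t i (c i)) (c i)]
    have h2 := (hGF e C lam v s hs (t i) (w i)).2.1
    have h3 : star (ψ i) ⬝ᵥ wv lam v (c i) (t i (c i)) = ((a i : ℝ) : ℂ) := h2
    rw [h3, Complex.norm_real, Real.norm_eq_abs, abs_of_pos (hapos i)]
  -- the pairs
  let ee : Fin m → Fin n × C := fun i => (⟨t i (c i), hlt i i.2⟩, c i)
  have hee : Function.Injective ee := by
    have key : ∀ i j : Fin m, i < j → ee i ≠ ee j := by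
      intro i j hij h
      have h1 : t i (c i) = t j (c j) := by
        have := congrArg (fun p : Fin n × C => (p.1 : ℕ)) h
        simpa [ee] using this
      have h2 : c i = c j := congrArg Prod.snd h
      have h3 : t (i + 1) (c i) = t i (c i) + 1 := by
        rw [hst i i.2, Function.update_self]
      have h4 : t ((i : ℕ) + 1) (c i) ≤ t j (c i) :=
        path_mono m t c hst (c i) _ _ (by exact_mod_cast hij) (le_of_lt j.2)
      rw [h2] at h3 h4
      rw [h2] at h1
      omega
    intro i j h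
    rcases lt_trichotomy i j with h1 | h1 | h1
    · exact absurd h (key i j h1)
    · exact h1
    · exact absurd h.symm (key j i h1)
  have havg := hAVG K C α x n m ee (fun i => φ i) hee
  -- terms of the sum
  have hterm : ∀ i : Fin m, a i / M ^ 2 ≤
      (‖φ i (α ^ ((ee i).1 : ℕ) * x (ee i).2)‖ ^ 2 /
        (‖φ i (α ^ ((ee i).1 : ℕ) * x (ee i).2)‖ ^ 2 + (1 / (Fintype.card C : ℝ)) *
          ∑ k ∈ univ.filter (fun k => k < i), ‖φ i (α ^ ((ee k).1 : ℕ) * x (ee k).2)‖ ^ 2)) := by
    intro i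
    have e1 : ‖φ i (α ^ ((ee i).1 : ℕ) * x (ee i).2)‖ = a i := hφa i
    have e2 : ∑ k ∈ univ.filter (fun k : Fin m => k < i),
        ‖φ i (α ^ ((ee k).1 : ℕ) * x (ee k).2)‖ ^ 2 =
        ∑ b, ∑ l ∈ range (t i b), ‖star (ψ i) ⬝ᵥ wv lam v b l‖ ^ 2 := by
      rw [← path_sum (fun b l => ‖star (ψ i) ⬝ᵥ wv lam v b l‖ ^ 2) m t c ht0 hst i
        (le_of_lt i.2), ← fin_filter_sum m
        (fun k => ‖star (ψ i) ⬝ᵥ wv lam v (c k) (t k (c k))‖ ^ 2) i]
      refine Finset.sum_congr rfl (fun k _ => ?_)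
      have : φ i (α ^ ((ee k).1 : ℕ) * x (ee k).2) =
          star (ψ i) ⬝ᵥ wv lam v (c k) (t k (c k)) := hφ i (t k (c k)) (c k)
      rw [this]
    rw [e1, e2]
    have e3 := (hGF e C lam v s hs (t i) (w i)).2.2.2
    have e4 : (1 / (Fintype.card C : ℝ)) * ∑ b, ∑ l ∈ range (t i b),
        ‖star (ψ i) ⬝ᵥ wv lam v b l‖ ^ 2 ≤ a i := e3
    have e5 : 0 ≤ (1 / (Fintype.card C : ℝ)) * ∑ b, ∑ l ∈ range (t i b),
        ‖star (ψ i) ⬝ᵥ wv lam v b l‖ ^ 2 := by positivity
    have e6 := hapos i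
    have e7 := haM i i.2
    rw [div_le_div_iff₀ (by positivity) (by positivity)]
    set Z := (1 / (Fintype.card C : ℝ)) * ∑ b, ∑ l ∈ range (t i b),
        ‖star (ψ i) ⬝ᵥ wv lam v b l‖ ^ 2
    have e8 : a i ^ 2 + Z ≤ a i * (1 + a i) := by nlinarith
    calc a i * (a i ^ 2 + Z) ≤ a i * (a i * (1 + a i)) := by
          exact mul_le_mul_of_nonneg_left e8 e6.le
      _ ≤ a i * (a i * M ^ 2) := by
          refine mul_le_mul_of_nonneg_left (mul_le_mul_of_nonneg_left ?_ e6.le) e6.le
          linarith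
      _ = a i ^ 2 * M ^ 2 := by ring
  have hsum : (1 / Q) * ∑ i : Fin m, (1 / 2) * (a i / M ^ 2) ≤ avgEnt α x n := by
    refine le_trans ?_ havg
    rw [← hQ]
    refine mul_le_mul_of_nonneg_left (Finset.sum_le_sum (fun i _ => ?_)) (by positivity)
    exact mul_le_mul_of_nonneg_left (hterm i) (by norm_num)
  -- determinants
  set Dt : ℕ → ℝ := fun i => (Nm lam v s (t i)).det.re with hDt
  have hDpos : ∀ i, 0 < Dt i := by
    intro i
    have h1 := (hGF e C lam v s hs (t i) (w i)).1
    have h2 := h1.det_pos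
    exact (Complex.pos_iff.mp h2).1
  have hDstep : ∀ i < m, Dt (i + 1) = Dt i * (1 + (1 / Q) * a i) := by
    intro i hi
    have h1 : Nm lam v s (t (i + 1)) = Nm lam v s (t i) +
        (((1 / Q : ℝ)) : ℂ) • Matrix.vecMulVec (w i) (star (w i)) := by
      unfold Nm
      rw [hst i hi, sum_update_range (fun b l => ((1 / (Fintype.card C : ℝ) : ℝ) : ℂ) •
        Matrix.vecMulVec (wv lam v b l) (star (wv lam v b l))) (t i) (c i), ← add_assoc]
    have h2 := (hRK1 e (Nm lam v s (t i)) (hGF e C lam v s hs (t i) (w i)).1 (w i) (1 / Q)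
      (by positivity)).2.2
    show (Nm lam v s (t (i + 1))).det.re = _
    rw [h1, h2]
  have hlog : ∀ i ≤ m, Real.log (Dt i) - Real.log (Dt 0) ≤ ∑ k ∈ range i, (1 / Q) * a k := by
    intro i
    induction i with
    | zero => intro _; simp
    | succ i ih =>
      intro hi
      have h1 := ih (by omega)
      rw [Finset.sum_range_succ, hDstep i (by omega), Real.log_mul (hDpos i).ne'
        (by have := hapos i; positivity)]
      have h2 : Real.log (1 + (1 / Q) * a i) ≤ (1 / Q) * a i := by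
        have := Real.log_le_sub_one_of_pos (x := 1 + (1 / Q) * a i)
          (by have := hapos i; positivity)
        linarith
      linarith
  have hD0 : Real.log (Dt 0) = e * Real.log s := by
    have h1 : Nm lam v s (t 0) = (s : ℂ) • (1 : Matrix (Fin e) (Fin e) ℂ) := by
      unfold Nm
      simp [ht0]
    have h2 : Dt 0 = s ^ e := by
      show (Nm lam v s (t 0)).det.re = _
      rw [h1, Matrix.det_smul, Matrix.det_one, mul_one, Fintype.card_fin, ← Complex.ofReal_pow,
        Complex.ofReal_re]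
    rw [h2, Real.log_pow]
  have hDm : Real.log κ + 2 * ((n : ℝ) - L) * Real.log M ≤ Real.log (Dt m) := by
    have h1 := hκ1 (n - L) (t m) (fun b => by have := hend b; omega)
    have h2 : Real.log (κ * M ^ (2 * (n - L))) ≤ Real.log (Dt m) :=
      Real.log_le_log (by positivity) h1
    rw [Real.log_mul hκ.ne' (by positivity), Real.log_pow] at h2
    have h3 : 2 * ((n : ℝ) - L) ≤ ((2 * (n - L) : ℕ) : ℝ) := by
      have : (n : ℝ) - L ≤ ((n - L : ℕ) : ℝ) := by
        rw [sub_le_iff_le_add]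
        exact_mod_cast (by omega : n ≤ n - L + L)
      push_cast
      linarith
    have h4 : 2 * ((n : ℝ) - L) * Real.log M ≤ ((2 * (n - L) : ℕ) : ℝ) * Real.log M :=
      mul_le_mul_of_nonneg_right h3 hlogM.le
    linarith
  have hfin := hlog m le_rfl
  have hsum2 : (1 / Q) * ∑ i : Fin m, (1 / 2) * (a i / M ^ 2) =
      (1 / (2 * M ^ 2)) * ∑ k ∈ range m, (1 / Q) * a k := by
    rw [← Fin.sum_univ_eq_sum_range (fun k => (1 / Q) * a k) m, Finset.mul_sum, Finset.mul_sum]
    refine Finset.sum_congr rfl (fun i _ => ?_)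
    field_simp
  have hfin2 : (1 / (2 * M ^ 2)) * (Real.log κ + 2 * ((n : ℝ) - L) * Real.log M -
      e * Real.log s) ≤ avgEnt α x n := by
    refine le_trans ?_ (hsum2 ▸ hsum)
    refine mul_le_mul_of_nonneg_left ?_ (by positivity)
    linarith
  refine le_trans (le_of_eq ?_) hfin2
  field_simp
  ring

end Pool.Agent.Helper77.GA
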